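import Pool.Agent.H63ND.Fam

/-!
# `Sq⁰`-families are all classes in the degrees `2 ^ j t`; the image and the kernel of `Sq¹`

For every line `s ≥ 2` there is a bound `J = J(s)` such that in the internal degrees `2 ^ j t`,
`j ≥ J`, of `Ext^{s,*}` over the mod 2 Steenrod algebra the following is true.

* `Sq⁰ : Ext^{s, 2^j t} → Ext^{s, 2^(j+1) t}` is bijective. So all classes in these degrees are
  members of `Sq⁰`-families, and nothing else is there.
* `d₂ x = 0` if and only if `Sq¹ x = 0`.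
* If `x` lives to `E_r`, `r ≥ 3`, then the image of `h₀ x` in `E_r` is zero if and only if `x` is
  `Sq¹` of a class in `Ext^{s-1, 2^(j-1) t}`. So, if `x` survives and detects `a`, then `h₀ x` survives
  (and detects `2 a`) if and only if `x` is not in the image of `Sq¹`. The kernel of `Sq¹` modulo the
  image of `Sq¹` is embedded by `h₀` in the page `E₃`.
* The New Doomsday Conjecture for the line `s` is equivalent to the vanishing of the groups
  `E_∞^{s, 2^j t}` for all `t` and all `j ≥ j₀(t)`.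

The starting point is the starting result on the eventual injectivity of `Sq⁰` and of `h₀`. The
method of its proof (a twisted cobar complex, in which every cocycle of a degree divisible by a high
power of two is a square plus a coboundary, as the higher twisted complexes are exact) also gives
the surjectivity.
-/

set_option autoImplicit false

set_option linter.dupNamespace false

namespace Pool.Agent.Results.MP_701abf_gt.FamiliesAndSqOne

open Pool.Agent.W624.NS Pool.Agent.H61ND Pool.Agent.H63ND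

/-- The class of the cocycle `x` survives to `E_∞`: it lives to all pages and has a nonzero image on
all of them. -/
def Survives (A : AdamsSequence) {s t : ℕ} (x : Z s) (hx : IsHom s t x.1) : Prop :=
  ∀ r, 2 ≤ r → ∃ y : A.E r s t, Lives A s t x hx r y ∧ y ≠ 0

/-- `Sq⁰ : Ext^{s, t} → Ext^{s, 2 t}` is bijective. -/
def SqZeroBijective (s t : ℕ) : Prop :=
  (∀ x : Z s, IsHom s (2 * t) x.1 → ∃ u : Z s, IsHom s t u.1 ∧ Sq0 s (cl u) = cl x) ∧
  ∀ u v : Z s, IsHom s t u.1 → IsHom s t v.1 → Sq0 s (cl u) = Sq0 s (cl v) → cl u = cl v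

/-- `x` is a class on the line `m + 1`, of degree `2 ^ j t`, and `Sq¹` of a class on the line `m`. -/
def IsSqOne (m j t : ℕ) (x : Z (m + 1)) : Prop :=
  ∃ w : Z m, IsHom m (2 ^ (j - 1) * t) w.1 ∧ cl (Sq1 m w) = cl x

/-- All classes `x` on the line `m + 1` of degree `2 ^ j t` have the following properties.
* `d₂ x = 0` if and only if `Sq¹ x = 0`.
* If `x` lives to `E_r`, `r ≥ 3`, then the image of `h₀ x` in `E_r` is zero if and only if `x` is
  `Sq¹` of a class.
* If `x` survives, then `h₀ x` survives if and only if `x` is not `Sq¹` of a class. -/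
def DegreeLaw (A : AdamsSequence) (m j t : ℕ) : Prop :=
  ∀ (x : Z (m + 1)) (hx : IsHom (m + 1) (2 ^ j * t) x.1),
    (A.IsCycle 2 (m + 1) (2 ^ j * t) (A.rep (m + 1) (2 ^ j * t) x hx) ↔
      cl (Sq1 (m + 1) x) = 0) ∧
    (∀ (r : ℕ) (y : A.E r (m + 1) (2 ^ j * t)), 3 ≤ r → Lives A (m + 1) (2 ^ j * t) x hx r y →
      (A.h r (m + 1) (2 ^ j * t) y = 0 ↔ IsSqOne m j t x)) ∧
    (Survives A x hx → (Survives A (h0Z (m + 1) x) (isHom_h0 x hx) ↔ ¬ IsSqOne m j t x))

/-- The New Doomsday Conjecture for the line `s`: for every class `x` on the line `s`, of positive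
degree, only finitely many members `x_j = (Sq⁰)^j x` survive. -/
def Doomsday (A : AdamsSequence) (s : ℕ) : Prop :=
  ∀ t, 0 < t → ∀ (x : Z s) (hx : IsHom s t x.1),
    {j : ℕ | Survives A ((sqZ s)^[j] x) (isHom_iter x hx j)}.Finite

/-- For all `t > 0` and all large `j` the group `E_∞^{s, 2^j t}` is zero: no class in
`Ext^{s, 2^j t}` survives. -/
def LimitPageVanishes (A : AdamsSequence) (s : ℕ) : Prop :=
  ∀ t, 0 < t → ∃ j₀ : ℕ, ∀ j, j₀ ≤ j → ∀ (x : Z s) (hx : IsHom s (2 ^ j * t) x.1),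
    ¬ Survives A x hx

theorem bijective (n : ℕ) : ∃ J : ℕ, ∀ j t : ℕ, J ≤ j → SqZeroBijective (n + 1) (2 ^ j * t) := by
  obtain ⟨J1, h1⟩ := surj_half n
  obtain ⟨J2, h2⟩ := sq_injective n
  refine ⟨J1 + J2, fun j t hj => ⟨fun x hx => ?_, fun u v hu hv h => ?_⟩⟩
  · have h3 : 2 * (2 ^ j * t) = 2 ^ (j + 1) * t := by ring
    rw [h3] at hx
    obtain ⟨u, hu, _, hxu⟩ := h1 j t (by omega) x hx
    exact ⟨u, hu, (cl_eq_iff.2 hxu).symm⟩
  · rw [Sq0_cl, Sq0_cl, cl_eq_iff] at h
    have h3 : (sqZ (n + 1) (subZ u v)).1 = (sqZ (n + 1) u).1 - (sqZ (n + 1) v).1 :=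
      sub_eq (n + 1) u.1 v.1
    rw [← h3] at h
    exact cl_eq_iff.2 (h2 j t (by omega) (subZ u v) (isHom_sub hu hv) h)

theorem survives_congr {A : AdamsSequence} {s t : ℕ} {x x' : Z s} {hx : IsHom s t x.1}
    {hx' : IsHom s t x'.1} (h : cl x = cl x') (hs : Survives A x hx) : Survives A x' hx' := by
  have h1 := (rep_congr A hx hx').2 (cl_eq_iff.1 h)
  intro r hr
  obtain ⟨y, hy, hne⟩ := hs r hr
  exact ⟨y, lives_congr A h1 hy, hne⟩

theorem doomsday_iff (n : ℕ) (A : AdamsSequence) :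
    Doomsday A (n + 1) ↔ LimitPageVanishes A (n + 1) := by
  constructor
  · intro h t ht
    obtain ⟨J, hJ⟩ := surj_iter n
    have hfin := finite_hom (n + 1) (2 ^ J * t)
    have hb : ∀ u : Z (n + 1), ∀ hu : IsHom (n + 1) (2 ^ J * t) u.1,
        ∃ M : ℕ, ∀ i, Survives A ((sqZ (n + 1))^[i] u) (isHom_iter u hu i) → i < M := by
      intro u hu
      obtain ⟨M, hM⟩ := (h (2 ^ J * t) (by positivity) u hu).bddAbove
      exact ⟨M + 1, fun i hi => Nat.lt_succ_of_le (hM hi)⟩
    choose! M hM using hb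
    obtain ⟨N, hN⟩ := (hfin.image M).bddAbove
    refine ⟨J + N, fun j hj x hx hs => ?_⟩
    obtain ⟨i, rfl⟩ : ∃ i, j = J + i := ⟨j - J, by omega⟩
    obtain ⟨u, hu, hux⟩ := hJ i t x hx
    have key : ∀ T, T = 2 ^ i * (2 ^ J * t) → ∀ (x : Z (n + 1)) (hx : IsHom (n + 1) T x.1),
        (Sq0 (n + 1))^[i] (cl u) = cl x → Survives A x hx →
        Survives A ((sqZ (n + 1))^[i] u) (isHom_iter u hu i) := by
      rintro T rfl x hx hux hs
      rw [Sq0_iter] at hux
      exact survives_congr hux.symm hs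
    have h1 := hM u hu i (key _ (by ring) x hx hux hs)
    have h2 : M u ≤ N := hN ⟨u, hu, rfl⟩
    omega
  · intro h t ht x hx
    obtain ⟨j₀, hj₀⟩ := h t ht
    refine (Set.finite_lt_nat j₀).subset fun j hj => ?_
    by_contra hcon
    exact hj₀ j (not_lt.1 hcon) _ _ hj

/-- **Theorem.** Let `s = m + 1 ≥ 2`. (1) There is `J`, depending only on `s`, such that for all
`j ≥ J` and all `t` the operation `Sq⁰ : Ext^{s, 2^j t} → Ext^{s, 2^(j+1) t}` is bijective, and for all
`j ≥ J`, all `t > 0` and every spectral sequence `A` which starts with `E₂ = Ext`, with `h₀` and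
Bruner's formula (for instance the Adams spectral sequence of the sphere) the classes in
`Ext^{s, 2^j t}` have the properties of `DegreeLaw`. (2) For every such `A` only finitely many members
of each `Sq⁰`-family on the line `s` survive if and only if for every `t > 0` the groups
`E_∞^{s, 2^j t}` are zero for all large `j`. -/
theorem result (m : ℕ) (hm : 1 ≤ m) :
    (∃ J : ℕ, ∀ j t : ℕ, J ≤ j → SqZeroBijective (m + 1) (2 ^ j * t) ∧
      (0 < t → ∀ A : AdamsSequence, DegreeLaw A m j t)) ∧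
    ∀ A : AdamsSequence, Doomsday A (m + 1) ↔ LimitPageVanishes A (m + 1) := by
  obtain ⟨n, rfl⟩ : ∃ n, m = n + 1 := ⟨m - 1, by omega⟩
  refine ⟨?_, fun A => doomsday_iff (n + 1) A⟩
  obtain ⟨J1, h1⟩ := bijective (n + 1)
  obtain ⟨J2, h2⟩ := cycle_iff_sq1 (n + 1)
  obtain ⟨J3, h3⟩ := hit_iff n
  obtain ⟨J4, h4⟩ := h0_injective (n + 1)
  refine ⟨J1 + J2 + J3 + J4, fun j t hj => ⟨h1 j t (by omega), fun ht A x hx =>
    ⟨h2 A j t (by omega) x hx, h3 A j t (by omega) ht x hx, fun hs => ⟨fun hs' => ?_,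
      fun hns => ?_⟩⟩⟩⟩
  · obtain ⟨y, hy, _⟩ := hs 3 (by norm_num)
    obtain ⟨y', hy', hne⟩ := hs' 3 (by norm_num)
    have h5 := lives_unique A hy' (lives_h A hy)
    intro hq
    exact hne (h5.trans ((h3 A j t (by omega) ht x hx 3 y le_rfl hy).2 hq))
  · intro r hr
    obtain ⟨y, hy, hne⟩ := hs r hr
    refine ⟨_, lives_h A hy, ?_⟩
    rcases Nat.lt_or_ge r 3 with h5 | h5
    · obtain rfl : r = 2 := by omega
      have h6 := lives_unique A hy Lives.start
      subst h6
      rw [A.mulH.h_rep _ _ x hx (isHom_h0 x hx)]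
      intro h7
      have h8 := (A.start.rep_zero _ _ _ _).1 h7
      exact hne ((A.start.rep_zero _ _ x hx).2 (h4 j t (by omega) x hx h8))
    · intro h7
      exact hns ((h3 A j t (by omega) ht x hx r y h5 hy).1 h7)

end Pool.Agent.Results.MP_701abf_gt.FamiliesAndSqOne
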