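import Pool.Agent.H63ND.Second

/-!
# The first two nonzero lines of the stems `2 ^ j t - s`: `Sq⁰`-families and `h₀` times them

Let `s ≥ 2`. In the stem `2 ^ j t - s` the lines `0, …, s - 1` of `E₂` are zero for large `j`, and the
line `s` is the group `Ext^{s, 2^j t}`, all elements of which are members of `Sq⁰`-families. The next
line is the group `Ext^{s+1, 2^j t + 1}`. We show that there is a bound `J = J(s)` such that for all
`j ≥ J` the following is true.

* The multiplication by `h₀` is a bijection from `Ext^{s, 2^j t}` to `Ext^{s+1, 2^j t + 1}`. So all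
  classes on the line `s + 1` are `h₀ x` with a member `x` of a `Sq⁰`-family.
* `d₂ (h₀ Sq⁰ x) = 0` if and only if `h₀² Sq¹ x = 0`.
* A class in `Ext^{s+1, 2^j t + 1}` which lives to `E_r`, `r ≥ 3`, is zero there if and only if it is
  `h₀ Sq¹ w` with a class `w` on the line `s - 1`.
* No class of the stem `2 ^ j t - s` on the lines `≤ s + 1` survives, for all `t` and all
  `j ≥ j₀(t)`, if and only if for all `x` on the line `s` only finitely many of the classes `x_j` and
  only finitely many of the classes `h₀ x_j` survive.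

The surjectivity of the multiplication by `h₀` is proved with the twisted cobar complexes of the
starting results: the derivative of a cocycle of degree `2 ^ j t + 1` is the coboundary of a cochain
with one affine coordinate `y`, the linear part of which is `y₀ z²` up to a coboundary, as the complexes
with twisted coefficients are exact in these degrees.
-/

set_option autoImplicit false

set_option linter.dupNamespace false

namespace Pool.Agent.Results.MP_701abf_gt.FirstTwoLines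

open Pool.Agent.W624.NS Pool.Agent.H61ND Pool.Agent.H63ND

/-- The class of the cocycle `x` survives to `E_∞`: it lives to all pages and has a nonzero image on
all of them. -/
def Survives (A : AdamsSequence) {s t : ℕ} (x : Z s) (hx : IsHom s t x.1) : Prop :=
  ∀ r, 2 ≤ r → ∃ y : A.E r s t, Lives A s t x hx r y ∧ y ≠ 0

/-- `h₀ : Ext^{s, t} → Ext^{s + 1, t + 1}` is bijective. -/
def HZeroBijective (s t : ℕ) : Prop :=
  (∀ u : Z (s + 1), IsHom (s + 1) (t + 1) u.1 → ∃ x : Z s, IsHom s t x.1 ∧ h0 s (cl x) = cl u) ∧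
  ∀ x y : Z s, IsHom s t x.1 → IsHom s t y.1 → h0 s (cl x) = h0 s (cl y) → cl x = cl y

/-- All classes `u` on the line `m + 2` of degree `2 ^ j t + 1` have the following properties.
* `u = h₀ Sq⁰ x` for a class `x` on the line `m + 1`, of degree `2 ^ (j - 1) t`.
* For all such `x`: `d₂ u = 0` if and only if `h₀ h₀ Sq¹ x = 0`.
* If `u` lives to `E_r`, `r ≥ 3`, then its image in `E_r` is zero if and only if `u` is `h₀ Sq¹ w`
  for a class `w` on the line `m`, of degree `2 ^ (j - 1) t`. -/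
def SecondLineLaw (A : AdamsSequence) (m j t : ℕ) : Prop :=
  ∀ (u : Z (m + 2)) (hu : IsHom (m + 2) (2 ^ j * t + 1) u.1),
    (∃ x : Z (m + 1), IsHom (m + 1) (2 ^ (j - 1) * t) x.1 ∧
      cl u = h0 (m + 1) (Sq0 (m + 1) (cl x))) ∧
    (∀ x : Z (m + 1), IsHom (m + 1) (2 ^ (j - 1) * t) x.1 →
      cl u = h0 (m + 1) (Sq0 (m + 1) (cl x)) →
      (A.IsCycle 2 (m + 2) (2 ^ j * t + 1) (A.rep (m + 2) (2 ^ j * t + 1) u hu) ↔
        h0 (m + 3) (h0 (m + 2) (cl (Sq1 (m + 1) x))) = 0)) ∧
    ∀ (r : ℕ) (y : A.E r (m + 2) (2 ^ j * t + 1)), 3 ≤ r →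
      Lives A (m + 2) (2 ^ j * t + 1) u hu r y →
      (y = 0 ↔ ∃ w : Z m, IsHom m (2 ^ (j - 1) * t) w.1 ∧ cl u = h0 (m + 1) (cl (Sq1 m w)))

/-- For every class `x` on the line `s`, of positive degree, only finitely many members
`x_j = (Sq⁰)^j x` survive, and only finitely many of the classes `h₀ x_j` survive. -/
def FinitelyManyPairs (A : AdamsSequence) (s : ℕ) : Prop :=
  ∀ t, 0 < t → ∀ (x : Z s) (hx : IsHom s t x.1),
    {j : ℕ | Survives A ((sqZ s)^[j] x) (isHom_iter x hx j)}.Finite ∧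
    {j : ℕ | Survives A (h0Z s ((sqZ s)^[j] x)) (isHom_h0 _ (isHom_iter x hx j))}.Finite

/-- For all `t > 0` and all large `j` the groups `E_∞^{i, d}` of the stem `d - i = 2 ^ j t - s` on the
lines `i ≤ s + 1` are zero: no class there survives. -/
def LowLinesVanish (A : AdamsSequence) (s : ℕ) : Prop :=
  ∀ t, 0 < t → ∃ j₀ : ℕ, ∀ j, j₀ ≤ j → ∀ i d : ℕ, i ≤ s + 1 → d + s = 2 ^ j * t + i →
    ∀ (u : Z i) (hu : IsHom i d u.1), ¬ Survives A u hu

theorem bijective (n : ℕ) : ∃ J : ℕ, ∀ j t : ℕ, J ≤ j → HZeroBijective (n + 1) (2 ^ j * t) := by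
  obtain ⟨J1, h1⟩ := h0_surj1 (n + 1)
  obtain ⟨J2, h2⟩ := h0_injective n
  refine ⟨J1 + J2 + 1, fun j t hj => ⟨fun u hu => ?_, fun x y hx hy h => ?_⟩⟩
  · obtain ⟨k, rfl⟩ : ∃ k, j = k + 1 := ⟨j - 1, by omega⟩
    obtain ⟨x, hx, hxu⟩ := h1 k t (by omega) u hu
    refine ⟨sqZ (n + 1) x, ?_, (cl_eq_iff.2 hxu).symm⟩
    have h3 : 2 ^ (k + 1) * t = 2 * (2 ^ k * t) := by ring
    rw [h3]
    exact isHom_sq x hx
  · rw [h0_cl, h0_cl, cl_eq_iff, ← h0Z_sub] at h
    exact cl_eq_iff.2 (h2 j t (by omega) (subZ x y) (isHom_sub hx hy) h)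

theorem survives_congr {A : AdamsSequence} {s t : ℕ} {x x' : Z s} {hx : IsHom s t x.1}
    {hx' : IsHom s t x'.1} (h : cl x = cl x') (hs : Survives A x hx) : Survives A x' hx' := by
  have h1 := (rep_congr A hx hx').2 (cl_eq_iff.1 h)
  intro r hr
  obtain ⟨y, hy, hne⟩ := hs r hr
  exact ⟨y, lives_congr A h1 hy, hne⟩

theorem not_survives {A : AdamsSequence} {s t : ℕ} {x : Z s} {hx : IsHom s t x.1}
    (h : IsB s x.1) : ¬ Survives A x hx := by
  intro hs
  obtain ⟨y, hy, hne⟩ := hs 2 le_rfl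
  exact hne ((lives_unique A hy Lives.start).trans ((A.start.rep_zero _ _ x hx).2 h))

theorem secondLineLaw (n : ℕ) : ∃ J : ℕ, ∀ j t : ℕ, J ≤ j → 0 < t → ∀ A : AdamsSequence,
    SecondLineLaw A (n + 1) j t := by
  obtain ⟨J1, h1⟩ := h0_surj1 (n + 1 + 1)
  obtain ⟨J2, h2⟩ := hit_second n
  refine ⟨J1 + J2 + 2, fun j t hj ht A u hu => ⟨?_, ?_, h2 A j t (by omega) ht u hu⟩⟩
  · obtain ⟨k, rfl⟩ : ∃ k, j = k + 1 := ⟨j - 1, by omega⟩
    obtain ⟨x, hx, hxu⟩ := h1 k t (by omega) u hu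
    exact ⟨x, hx, cl_eq_iff.2 hxu⟩
  · obtain ⟨k, rfl⟩ : ∃ k, j = k + 2 := ⟨j - 2, by omega⟩
    have hpre : k + 2 - 1 = k + 1 := by omega
    rw [hpre]
    intro x hx hxu
    have hev : Even (2 ^ (k + 1) * t) := by
      rw [pow_succ, mul_comm (2 ^ k) 2, mul_assoc]
      exact even_two_mul _
    have h3 : 2 ^ (k + 2) * t = 2 * (2 ^ (k + 1) * t) := by ring
    have hx2 : IsHom (n + 1 + 1) (2 ^ (k + 2) * t) (sqZ (n + 1 + 1) x).1 := by
      rw [h3]
      exact isHom_sq x hx
    have h4 := (rep_congr A hu (isHom_h0 _ hx2)).2 (cl_eq_iff.1 hxu)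
    rw [← cycle_h_iff A h3 hev x hx hx2, ← h4]

/-- the iterates of `Sq⁰` on the classes of degree `2 ^ J t` are all classes of the degrees
`2 ^ (J + i) t` -/
theorem bounded (n : ℕ) (A : AdamsSequence) (h : FinitelyManyPairs A (n + 1)) (t : ℕ)
    (ht : 0 < t) : ∃ j₀ : ℕ, ∀ j, j₀ ≤ j → ∀ (x : Z (n + 1)) (hx : IsHom (n + 1) (2 ^ j * t) x.1),
      ¬ Survives A x hx ∧ ¬ Survives A (h0Z (n + 1) x) (isHom_h0 _ hx) := by
  obtain ⟨J, hJ⟩ := surj_iter n
  have hfin := finite_hom (n + 1) (2 ^ J * t)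
  have hb : ∀ u : Z (n + 1), ∀ hu : IsHom (n + 1) (2 ^ J * t) u.1,
      ∃ M : ℕ, ∀ i, Survives A ((sqZ (n + 1))^[i] u) (isHom_iter u hu i) ∨
        Survives A (h0Z (n + 1) ((sqZ (n + 1))^[i] u)) (isHom_h0 _ (isHom_iter u hu i)) →
        i < M := by
    intro u hu
    obtain ⟨h1, h2⟩ := h (2 ^ J * t) (by positivity) u hu
    obtain ⟨M, hM⟩ := (h1.union h2).bddAbove
    exact ⟨M + 1, fun i hi => Nat.lt_succ_of_le (hM hi)⟩
  choose! M hM using hb
  obtain ⟨N, hN⟩ := (hfin.image M).bddAbove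
  refine ⟨J + N + 1, fun j hj x hx => ?_⟩
  obtain ⟨i, rfl⟩ : ∃ i, j = J + i := ⟨j - J, by omega⟩
  obtain ⟨u, hu, hux⟩ := hJ i t x hx
  have hiN : ¬ i < M u := by
    have h2 : M u ≤ N := hN ⟨u, hu, rfl⟩
    omega
  have key : ∀ T, T = 2 ^ i * (2 ^ J * t) → ∀ (x : Z (n + 1)) (hx : IsHom (n + 1) T x.1),
      (Sq0 (n + 1))^[i] (cl u) = cl x →
      (Survives A x hx → Survives A ((sqZ (n + 1))^[i] u) (isHom_iter u hu i)) ∧
      (Survives A (h0Z (n + 1) x) (isHom_h0 _ hx) →
        Survives A (h0Z (n + 1) ((sqZ (n + 1))^[i] u)) (isHom_h0 _ (isHom_iter u hu i))) := by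
    rintro T rfl x hx hux
    rw [Sq0_iter] at hux
    refine ⟨survives_congr hux.symm, survives_congr ?_⟩
    rw [← h0_cl, ← h0_cl, hux]
  obtain ⟨k1, k2⟩ := key _ (by ring) x hx hux
  exact ⟨fun hs => hiN (hM u hu i (Or.inl (k1 hs))), fun hs => hiN (hM u hu i (Or.inr (k2 hs)))⟩

theorem lowLines_iff (n : ℕ) (A : AdamsSequence) :
    FinitelyManyPairs A (n + 1) ↔ LowLinesVanish A (n + 1) := by
  constructor
  · intro h t ht
    obtain ⟨j₁, hj₁⟩ := bounded n A h t ht
    obtain ⟨J, hJ⟩ := bijective n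
    refine ⟨j₁ + J + 2 * n + 2, fun j hj i d hi hd u hu hs => ?_⟩
    have hbig : n + 1 ≤ 2 ^ j * t := by
      have h1 : j < 2 ^ j := Nat.lt_two_pow_self
      have h2 : 2 ^ j * 1 ≤ 2 ^ j * t := Nat.mul_le_mul_left _ ht
      omega
    rcases Nat.lt_or_ge i (n + 1) with h1 | h1
    · obtain ⟨k, rfl⟩ : ∃ k, i = n + 1 - k := ⟨n + 1 - i, by omega⟩
      rcases Nat.lt_or_ge (n + 1) k with h2 | h2
      · have hi0 : n + 1 - k = n + 1 - (n + 1) := by omega
        have hd0 : d = 2 ^ j * t - (n + 1) := by omega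
        subst hd0
        have key : ∀ i, i = n + 1 - (n + 1) → ∀ (u : Z i), IsHom i (2 ^ j * t - (n + 1)) u.1 →
            IsB i u.1 := by
          rintro i rfl u hu
          exact sparse (n + 1) j t (n + 1) (by omega) (by omega) ht (by omega) le_rfl u hu
        exact not_survives (key _ hi0 u hu) hs
      · obtain rfl : d = 2 ^ j * t - k := by omega
        exact not_survives (sparse (n + 1) j t k (by omega) (by omega) ht (by omega) h2 u hu) hs
    · rcases Nat.lt_or_ge (n + 1) i with h2 | h2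
      · obtain rfl : i = n + 1 + 1 := by omega
        obtain rfl : d = 2 ^ j * t + 1 := by omega
        obtain ⟨x, hx, hxu⟩ := (hJ j t (by omega)).1 u hu
        rw [h0_cl] at hxu
        exact (hj₁ j (by omega) x hx).2 (survives_congr hxu.symm hs)
      · obtain rfl : i = n + 1 := by omega
        obtain rfl : d = 2 ^ j * t := by omega
        exact (hj₁ j (by omega) u hu).1 hs
  · intro h t ht x hx
    obtain ⟨j₀, hj₀⟩ := h t ht
    constructor
    · refine (Set.finite_lt_nat j₀).subset fun j hj => ?_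
      by_contra hcon
      exact hj₀ j (not_lt.1 hcon) (n + 1) (2 ^ j * t) (by omega) rfl _ _ hj
    · refine (Set.finite_lt_nat j₀).subset fun j hj => ?_
      by_contra hcon
      exact hj₀ j (not_lt.1 hcon) (n + 1 + 1) (2 ^ j * t + 1) le_rfl (by omega) _ _ hj

/-- **Theorem.** Let `s = m + 1 ≥ 2`. (1) There is `J`, depending only on `s`, such that for all
`j ≥ J` and all `t` the multiplication by `h₀` is a bijection from `Ext^{s, 2^j t}` to
`Ext^{s+1, 2^j t + 1}`, and for all `j ≥ J`, all `t > 0` and every spectral sequence `A` which starts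
with `E₂ = Ext`, with `h₀` and Bruner's formula (for instance the Adams spectral sequence of the
sphere) the classes in `Ext^{s+1, 2^j t + 1}` have the properties of `SecondLineLaw`. (2) For every such
`A`: for every class `x` on the line `s` only finitely many `x_j` and only finitely many `h₀ x_j`
survive, if and only if for every `t > 0` the groups `E_∞` of the stem `2 ^ j t - s` on the lines
`≤ s + 1` are zero for all large `j`. -/
theorem result (m : ℕ) (hm : 1 ≤ m) :
    (∃ J : ℕ, ∀ j t : ℕ, J ≤ j → HZeroBijective (m + 1) (2 ^ j * t) ∧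
      (0 < t → ∀ A : AdamsSequence, SecondLineLaw A m j t)) ∧
    ∀ A : AdamsSequence, FinitelyManyPairs A (m + 1) ↔ LowLinesVanish A (m + 1) := by
  obtain ⟨n, rfl⟩ : ∃ n, m = n + 1 := ⟨m - 1, by omega⟩
  refine ⟨?_, fun A => lowLines_iff (n + 1) A⟩
  obtain ⟨J1, h1⟩ := bijective (n + 1)
  obtain ⟨J2, h2⟩ := secondLineLaw n
  exact ⟨J1 + J2, fun j t hj => ⟨h1 j t (by omega), fun ht A => h2 j t (by omega) ht A⟩⟩

end Pool.Agent.Results.MP_701abf_gt.FirstTwoLines
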