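import Pool.Agent.H61ND.SS

/-!
# Members of `Sq⁰`-families are never hit by Adams differentials

`x` is a class on the Adams `s`-line, `s ≥ 1`, and `x_j = (Sq⁰)^j x`.

* In the stems `2 ^ j t - s` with `j ≥ s` and `j ≥ 2 s - 3` the lines `0, …, s - 1` of `E₂` are zero.
* If `j ≥ s - 1` and `j ≥ 2 s - 5`, no differential hits a nonzero element of `E_r^{s, 2 ^ j t}`,
  `r ≥ 2`. So the classes in `Ext^{s, 2 ^ j t}`, in particular the `x_j ≠ 0`, survive to `E_∞` if and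
  only if they are permanent cycles.
* If `x_j ≠ 0` and `j ≥ J(s)`, then `h₀ x_j ≠ 0`, and the only differential which may hit it is
  `d₂ : E₂^{s - 1, 2 ^ j t} → E₂^{s + 1, 2 ^ j t + 1}`.

The proof uses two starting results: the vanishing of `Ext^{s, t}` if `t` has more than `s` and at least
`2 s - 1` binary digits `1`, and the eventual injectivity of `Sq⁰` and of the multiplication by `h₀`.
-/

set_option autoImplicit false

set_option linter.dupNamespace false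

namespace Pool.Agent.Results.MP_701abf_gt.NeverHit

open Pool.Agent.W624.NS Pool.Agent.H61ND

/-- The class of the cocycle `x` is a permanent cycle: it lives to all pages. -/
def PermanentCycle (A : AdamsSequence) {s t : ℕ} (x : Z s) (hx : IsHom s t x.1) : Prop :=
  ∀ r, 2 ≤ r → ∃ y : A.E r s t, Lives A s t x hx r y

/-- The class of the cocycle `x` survives to `E_∞`: it is a permanent cycle with a nonzero image on
all pages. -/
def Survives (A : AdamsSequence) {s t : ℕ} (x : Z s) (hx : IsHom s t x.1) : Prop :=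
  ∀ r, 2 ≤ r → ∃ y : A.E r s t, Lives A s t x hx r y ∧ y ≠ 0

/-- Nothing hits the class of `x`: if it lives to `E_r` with the image `y`, then `y` is not zero and
not in the image of `d_r`. -/
def NeverHit (A : AdamsSequence) {s t : ℕ} (x : Z s) (hx : IsHom s t x.1) : Prop :=
  ∀ (r : ℕ) (y : A.E r s t), Lives A s t x hx r y → y ≠ 0 ∧ ¬ A.IsHit r s t y

theorem survives_iff {A : AdamsSequence} {s t : ℕ} {x : Z s} {hx : IsHom s t x.1}
    (h : NeverHit A x hx) : Survives A x hx ↔ PermanentCycle A x hx := by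
  constructor
  · intro h1 r hr
    obtain ⟨y, hy, _⟩ := h1 r hr
    exact ⟨y, hy⟩
  · intro h1 r hr
    obtain ⟨y, hy⟩ := h1 r hr
    exact ⟨y, hy, (h r y hy).1⟩

theorem sources {s j t : ℕ} (h1 : s ≤ j + 1) (h2 : 2 * s ≤ j + 5) (ht : 0 < t)
    (A : AdamsSequence) (r : ℕ) (hr : 2 ≤ r) (s₀ t₀ : ℕ) (k : ℕ) (hk : 1 ≤ k)
    (h : s₀ + k + 1 = s) (h' : t₀ + k = 2 ^ j * t) (z : A.E r s₀ t₀) : z = 0 := by
  refine page_zero A (fun x hx => ?_) r hr z
  obtain rfl : s₀ = s - 1 - k := by omega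
  obtain rfl : t₀ = 2 ^ j * t - k := by omega
  exact sparse (s - 1) j t k (by omega) (by omega) ht hk (by omega) x hx

theorem neverHit {s j t : ℕ} (h1 : s ≤ j + 1) (h2 : 2 * s ≤ j + 5) (ht : 0 < t)
    (A : AdamsSequence) (x : Z s) (hx : IsHom s (2 ^ j * t) x.1) (hB : ¬ IsB s x.1) :
    NeverHit A x hx := by
  have h0 : ∀ r, 2 ≤ r → ∀ s₀ t₀ : ℕ, s₀ + r = s → t₀ + r = 2 ^ j * t + 1 →
      ∀ z : A.E r s₀ t₀, z = 0 := fun r hr s₀ t₀ h h' z =>
    sources h1 h2 ht A r hr s₀ t₀ (r - 1) (by omega) (by omega) (by omega) z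
  intro r y hy
  have h3 : y ≠ 0 := fun h => hB ((lives_zero A h0 hy).1 h)
  exact ⟨h3, fun h => h3 ((hit_zero A (h0 r hy.two_le) y).1 h)⟩

theorem cycle_iff (A : AdamsSequence) {s t T : ℕ} (hT : T = 2 * t) (ht : Even t) (w : Z s)
    (hw : IsHom s t w.1) (hx : IsHom s T (sqZ s w).1) :
    A.IsCycle 2 s T (A.rep s T (sqZ s w) hx) ↔ h0 (s + 1) (cl (Sq1 s w)) = 0 := by
  subst hT
  have hh : IsHom (s + 2) (2 * t + 1) (h0Z (s + 1) (Sq1 s w)).1 := isHom_h0 _ (isHom_Sq1 w hw)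
  have hb := A.bruner s t w hw hx hh ht rfl rfl
  rw [h0_cl, cl_eq_zero, ← A.start.rep_zero (s + 2) (2 * t + 1) _ hh, ← hb]
  constructor
  · intro h
    exact h _ _ rfl rfl
  · intro h s' t' e1 e2
    obtain rfl : s' = s + 2 := e1.symm
    obtain rfl : t' = 2 * t + 1 := by omega
    exact h

/-- The class `x_j = (Sq⁰)^j x` in `E₂^{s, 2 ^ j t}`; `hj` says that the cocycle is homogeneous. -/
noncomputable def member (A : AdamsSequence) {s t : ℕ} (x : Z s) (j : ℕ)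
    (hj : IsHom s (2 ^ j * t) ((sqZ s)^[j] x).1) : A.E 2 s (2 ^ j * t) :=
  A.rep s (2 ^ j * t) ((sqZ s)^[j] x) hj

/-- The groups `E₂^{s-k, 2^j t - k} = Ext^{s-k, 2^j t - k}`, `1 ≤ k ≤ s`, of the stem `2^j t - s` below
the line `s` are zero. -/
def NothingBelow (s j t : ℕ) : Prop :=
  ∀ k : ℕ, 1 ≤ k → k ≤ s → ∀ x : Z (s - k), IsHom (s - k) (2 ^ j * t - k) x.1 → IsB (s - k) x.1

/-- The member `x_j` of the `Sq⁰`-family of `x` has the following properties.
* `x_j` is a `d₂`-cycle if and only if `(Sq⁰)^J (Sq¹ x) = 0` (this part is a starting result);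
* `x_j` is never hit, and it survives if and only if it is a permanent cycle;
* `h₀ x_j ≠ 0`, and if `x_j` lives to `E_r`, `r ≥ 3`, with the image `y`, then the image `h₀ y` of
  `h₀ x_j` in `E_r` is zero if and only if `h₀ x_j` is hit by `d₂` (that is, `h₀ x_j = d₂ z` with
  `z` in `E₂^{s - 1, 2^j t}`). -/
def MemberLaw (A : AdamsSequence) {s t : ℕ} (J : ℕ) (x : Z s) (j : ℕ)
    (hj : IsHom s (2 ^ j * t) ((sqZ s)^[j] x).1) : Prop :=
  (A.IsCycle 2 s (2 ^ j * t) (member A x j hj) ↔ (Sq0 (s + 1))^[J] (cl (Sq1 s x)) = 0) ∧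
  NeverHit A ((sqZ s)^[j] x) hj ∧
  (Survives A ((sqZ s)^[j] x) hj ↔ PermanentCycle A ((sqZ s)^[j] x) hj) ∧
  A.h 2 s (2 ^ j * t) (member A x j hj) ≠ 0 ∧
  ∀ (r : ℕ) (y : A.E r s (2 ^ j * t)), 3 ≤ r → Lives A s (2 ^ j * t) ((sqZ s)^[j] x) hj r y →
    (A.h r s (2 ^ j * t) y = 0 ↔
      A.IsHit 2 (s + 1) (2 ^ j * t + 1) (A.h 2 s (2 ^ j * t) (member A x j hj)))

/-- **Members of `Sq⁰`-families are never hit.**  `E₂^{s,t} = Ext^{s,t}` consists of the homogeneous
cocycles `x` of degree `t` in the `s`-th term of the cobar complex (`x : Z s`, `IsHom s t x`)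
modulo the coboundaries (`IsB`); `A` is a spectral sequence which starts with `E₂`, with `h₀` and
Bruner's formula, for instance the Adams spectral sequence of the sphere.

(1) The groups `E₂^{s-k, 2^j t - k}`, `1 ≤ k ≤ s`, of the stem `2^j t - s` below the line `s` are zero
if `j ≥ s` and `j ≥ 2 s - 3`.
(2) Nonzero classes in `E₂^{s, 2^j t}` are never hit if `j ≥ s - 1` and `j ≥ 2 s - 5`; they survive if
and only if they are permanent cycles.
(3) There is `J`, depending only on `s`, such that for all classes `x` on the `s`-line and all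
`j ≥ J` with `x_j ≠ 0` the statements of `MemberLaw` are true. -/
theorem result (s : ℕ) (hs : 1 ≤ s) :
    (∀ j t : ℕ, s ≤ j → 2 * s ≤ j + 3 → 0 < t → NothingBelow s j t) ∧
    (∀ (A : AdamsSequence) (j t : ℕ), s ≤ j + 1 → 2 * s ≤ j + 5 → 0 < t →
      ∀ (x : Z s) (hx : IsHom s (2 ^ j * t) x.1), ¬ IsB s x.1 →
        NeverHit A x hx ∧ (Survives A x hx ↔ PermanentCycle A x hx)) ∧
    ∃ J : ℕ, ∀ (A : AdamsSequence) (t : ℕ), 0 < t → ∀ x : Z s, IsHom s t x.1 → ∀ j, J ≤ j →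
      (Sq0 s)^[j] (cl x) ≠ 0 → ∀ hj : IsHom s (2 ^ j * t) ((sqZ s)^[j] x).1,
        MemberLaw A J x j hj := by
  obtain ⟨n, rfl⟩ : ∃ n, s = n + 1 := ⟨s - 1, by omega⟩
  refine ⟨fun j t h1 h2 ht k hk hks x hx => sparse (n + 1) j t k h1 h2 ht hk hks x hx,
    fun A j t h1 h2 ht x hx hB => ?_, ?_⟩
  · have h3 := neverHit h1 h2 ht A x hx hB
    exact ⟨h3, survives_iff h3⟩
  obtain ⟨J0, hJ0⟩ := h0_iter n
  obtain ⟨J1, hJ1⟩ := h0_iter (n + 1)
  obtain ⟨r, hr⟩ := nil_iter (n + 1)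
  have up : ∀ (y : Ext (n + 1 + 1)) (a b : ℕ), a ≤ b → (Sq0 (n + 1 + 1))^[a] y = 0 →
      (Sq0 (n + 1 + 1))^[b] y = 0 := by
    intro y a b hab h
    obtain ⟨c, rfl⟩ := Nat.exists_eq_add_of_le hab
    rw [add_comm a c, Function.iterate_add_apply, h]
    exact Sq0_iter_zero _ _
  refine ⟨J0 + J1 + r + 2 * n + 2, fun A t ht x hx j hj hne hjh => ?_⟩
  have hB : ¬ IsB (n + 1) ((sqZ (n + 1))^[j] x).1 := by
    rw [← cl_eq_zero, ← Sq0_iter]
    exact hne
  have hN : NeverHit A ((sqZ (n + 1))^[j] x) hjh :=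
    neverHit (by omega) (by omega) ht A _ hjh hB
  have hh0 : ¬ IsB (n + 1 + 1) (h0Z (n + 1) ((sqZ (n + 1))^[j] x)).1 := by
    intro h
    obtain ⟨i, rfl⟩ : ∃ i, j = i + 1 := ⟨j - 1, by omega⟩
    rw [← cl_eq_zero, ← h0_cl, ← Sq0_iter] at h
    have h1 := hJ0 (cl x) i (by omega) h
    apply hne
    rw [Function.iterate_succ_apply', h1, Sq0_zero]
  have hrep := A.mulH.h_rep (n + 1) (2 ^ j * t) ((sqZ (n + 1))^[j] x) hjh (isHom_h0 _ hjh)
  unfold MemberLaw member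
  refine ⟨?_, hN, survives_iff hN, ?_, fun q y hq hy => ?_⟩
  · obtain ⟨k, rfl⟩ : ∃ k, j = k + 2 := ⟨j - 2, by omega⟩
    have hev : Even (2 ^ (k + 1) * t) := by
      rw [pow_succ, mul_comm (2 ^ k) 2, mul_assoc]
      exact even_two_mul _
    have hw := isHom_iter x hx (k + 1)
    have e1 : (sqZ (n + 1))^[k + 2] x = sqZ (n + 1) ((sqZ (n + 1))^[k + 1] x) :=
      Function.iterate_succ_apply' _ _ _
    have key : ∀ (u : Z (n + 1)) (hu : IsHom (n + 1) (2 ^ (k + 2) * t) u.1),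
        u = sqZ (n + 1) ((sqZ (n + 1))^[k + 1] x) →
        (A.IsCycle 2 (n + 1) (2 ^ (k + 2) * t) (A.rep (n + 1) (2 ^ (k + 2) * t) u hu) ↔
          h0 (n + 1 + 1) (cl (Sq1 (n + 1) ((sqZ (n + 1))^[k + 1] x))) = 0) := by
      intro u hu he
      subst he
      exact cycle_iff A (by ring) hev _ hw hu
    rw [key _ hjh e1, Sq1_iter, ← Sq0_iter]
    constructor
    · intro h
      have h1 := hJ1 (cl (Sq1 (n + 1) x)) k (by omega) h
      exact up _ r _ (by omega) (hr _ _ h1)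
    · intro h
      have h1 := hr _ _ h
      rw [up _ r (k + 1) (by omega) h1, h0_zero]
  · rw [hrep, Ne, A.start.rep_zero]
    exact hh0
  · have hl := lives_h A hy
    have h0 : ∀ q, 3 ≤ q → ∀ s₀ t₀ : ℕ, s₀ + q = n + 1 + 1 → t₀ + q = 2 ^ j * t + 1 + 1 →
        ∀ z : A.E q s₀ t₀, z = 0 := fun q hq s₀ t₀ h h' z =>
      sources (s := n + 1) (j := j) (by omega) (by omega) ht A q (by omega) s₀ t₀ (q - 2)
        (by omega) (by omega) (by omega) z
    rw [lives_zero3 A h0 hl hq, hrep]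

end Pool.Agent.Results.MP_701abf_gt.NeverHit
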