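import Pool.Agent.H63ND.Five

/-!
# The page `E₃` on the second nonzero line of the stems `2 ^ j t - s` is the homology of `Sq¹`

Let `s ≥ 2`. In the stem `2 ^ j t - s` the lines below `s` are zero for large `j`, the line `s` consists
of members of `Sq⁰`-families and the line `s + 1` of the products `h₀ x` with these members `x`. We show
that there is a bound `J = J(s)` such that for all `j ≥ J` the following is true.

* The multiplication by `h₀²` is injective on `Ext^{s, 2^j t}`.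
* `d₂ (h₀ x) = 0` if and only if `Sq¹ x = 0` (if and only if `d₂ x = 0`), for `x` in `Ext^{s, 2^j t}`.
* The map `x ↦ h₀ x` from the kernel of `Sq¹` on `Ext^{s, 2^j t}` to `E₃^{s+1, 2^j t + 1}` is surjective,
  and its kernel is the image of `Sq¹ : Ext^{s-1, 2^(j-1) t} → Ext^{s, 2^j t}`. So
  `E₃^{s+1, 2^j t + 1}` is the homology of `Sq¹`.
* The multiplication by `h₀` from `E₃^{s+1, 2^j t + 1}` to `E₃^{s+2, 2^j t + 2}` is injective.
* A class in `Ext^{s+1, 2^j t + 1}` which survives is `h₀ x` with `Sq¹ x = 0` and `x` not in the image of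
  `Sq¹`: it gives a nonzero element of the homology of `Sq¹`.

The injectivity of `h₀²`: if `[z² | ξ₁ | ξ₁]` is the coboundary of `q`, then `D q + [z² | ξ₁ dξ₁]` is a
cocycle with the derivative `[z² | (dξ₁)²]`. In the acyclic affine complex this class is the coboundary
of `y₀² z²`, and a comparison of the parts of degree two in `y` shows that `y₀² z²` is a coboundary in the
twisted complex, from which the eventual injectivity for twisted coefficients gives that `z` is one.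
-/

set_option autoImplicit false

set_option linter.dupNamespace false

namespace Pool.Agent.Results.MP_701abf_gt.ThirdPage

open Pool.Agent.W624.NS Pool.Agent.H61ND Pool.Agent.H63ND

/-- The class of the cocycle `x` survives to `E_∞`: it lives to all pages and has a nonzero image on
all of them. -/
def Survives (A : AdamsSequence) {s t : ℕ} (x : Z s) (hx : IsHom s t x.1) : Prop :=
  ∀ r, 2 ≤ r → ∃ y : A.E r s t, Lives A s t x hx r y ∧ y ≠ 0

/-- `h₀² : Ext^{s, t} → Ext^{s + 2, t + 2}` is injective. -/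
def HZeroSquareInjective (s t : ℕ) : Prop :=
  ∀ x y : Z s, IsHom s t x.1 → IsHom s t y.1 →
    h0 (s + 1) (h0 s (cl x)) = h0 (s + 1) (h0 s (cl y)) → cl x = cl y

/-- `x` is a class on the line `m + 1`, of degree `2 ^ j t`, and `Sq¹` of a class on the line `m`. -/
def IsSqOne (m j t : ℕ) (x : Z (m + 1)) : Prop :=
  ∃ w : Z m, IsHom m (2 ^ (j - 1) * t) w.1 ∧ cl (Sq1 m w) = cl x

/-- For the classes `x` on the line `m + 1` of degree `2 ^ j t`: `d₂ (h₀ x) = 0` if and only if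
`Sq¹ x = 0`. -/
def CycleLaw (A : AdamsSequence) (m j t : ℕ) : Prop :=
  ∀ (x : Z (m + 1)) (hx : IsHom (m + 1) (2 ^ j * t) x.1),
    A.IsCycle 2 (m + 2) (2 ^ j * t + 1)
      (A.rep (m + 2) (2 ^ j * t + 1) (h0Z (m + 1) x) (isHom_h0 x hx)) ↔
      cl (Sq1 (m + 1) x) = 0

/-- If `Sq¹ x = 0`, then `x` lives to `E₃`, with an image `y` such that `h₀ y = 0` if and only if `x`
is `Sq¹` of a class. -/
def KernelLaw (A : AdamsSequence) (m j t : ℕ) : Prop :=
  ∀ (x : Z (m + 1)) (hx : IsHom (m + 1) (2 ^ j * t) x.1), cl (Sq1 (m + 1) x) = 0 →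
    ∃ y : A.E 3 (m + 1) (2 ^ j * t), Lives A (m + 1) (2 ^ j * t) x hx 3 y ∧
      (A.h 3 (m + 1) (2 ^ j * t) y = 0 ↔ IsSqOne m j t x)

/-- All elements of `E₃^{m + 2, 2 ^ j t + 1}` are products `h₀ y`, `y` the image in `E₃` of a class `x`
on the line `m + 1` of degree `2 ^ j t` with `Sq¹ x = 0`. -/
def ImageLaw (A : AdamsSequence) (m j t : ℕ) : Prop :=
  ∀ z : A.E 3 (m + 2) (2 ^ j * t + 1), ∃ (x : Z (m + 1)) (hx : IsHom (m + 1) (2 ^ j * t) x.1)
    (y : A.E 3 (m + 1) (2 ^ j * t)), cl (Sq1 (m + 1) x) = 0 ∧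
      Lives A (m + 1) (2 ^ j * t) x hx 3 y ∧ A.h 3 (m + 1) (2 ^ j * t) y = z

/-- The multiplication by `h₀` is injective on `E₃^{m + 2, 2 ^ j t + 1}`. -/
def HZeroLaw (A : AdamsSequence) (m j t : ℕ) : Prop :=
  ∀ z : A.E 3 (m + 2) (2 ^ j * t + 1), A.h 3 (m + 2) (2 ^ j * t + 1) z = 0 → z = 0

/-- If `u` in `Ext^{m + 2, 2 ^ j t + 1}` survives, then `u = h₀ x` with `Sq¹ x = 0` and `x` not `Sq¹`
of a class. -/
def SurvivorLaw (A : AdamsSequence) (m j t : ℕ) : Prop :=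
  ∀ (u : Z (m + 2)) (hu : IsHom (m + 2) (2 ^ j * t + 1) u.1), Survives A u hu →
    ∃ x : Z (m + 1), IsHom (m + 1) (2 ^ j * t) x.1 ∧ cl u = h0 (m + 1) (cl x) ∧
      cl (Sq1 (m + 1) x) = 0 ∧ ¬ IsSqOne m j t x

/-- All these properties of the classes on the line `m + 1` of degree `2 ^ j t` and of the page `E₃` on
the line `m + 2`. -/
def ThirdPageLaw (A : AdamsSequence) (m j t : ℕ) : Prop :=
  CycleLaw A m j t ∧ KernelLaw A m j t ∧ ImageLaw A m j t ∧ HZeroLaw A m j t ∧ SurvivorLaw A m j t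

theorem cycle_of_lives (A : AdamsSequence) {s t : ℕ} {x : Z s} {hx : IsHom s t x.1} {r : ℕ}
    {y : A.E r s t} (h : Lives A s t x hx r y) (hr : 3 ≤ r) :
    A.IsCycle 2 s t (A.rep s t x hx) := by
  induction h with
  | start => omega
  | step r y hy hl ih =>
    by_cases h3 : 3 ≤ r
    · exact ih h3
    · cases hl with
      | start => exact hy
      | step r y hy' hl' =>
        exfalso
        have := hl'.two_le
        omega

theorem sq_inj (n : ℕ) : ∃ J : ℕ, ∀ j t : ℕ, J ≤ j → HZeroSquareInjective (n + 1) (2 ^ j * t) := by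
  obtain ⟨J, hJ⟩ := h0sq_injective n
  refine ⟨J, fun j t hj x y hx hy h => ?_⟩
  have e7 : h0 (n + 1 + 1) (h0 (n + 1) (cl (subZ x y))) = 0 := by
    rw [h0_cl, h0_cl, cl_eq_zero]
    have e8 : (h0Z (n + 1 + 1) (h0Z (n + 1) (subZ x y))).1 =
        (h0Z (n + 1 + 1) (h0Z (n + 1) x)).1 - (h0Z (n + 1 + 1) (h0Z (n + 1) y)).1 := by
      change mulH0 _ (h0Z (n + 1) (subZ x y)).1 = _
      rw [h0Z_sub, mulH0_sub]
      rfl
    rw [e8]
    rw [h0_cl, h0_cl, h0_cl, h0_cl] at h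
    exact cl_eq_iff.1 h
  have e9 := hJ j t hj (subZ x y) (isHom_sub hx hy) e7
  rw [cl_eq_zero] at e9
  exact cl_eq_iff.2 e9

theorem survivors (n : ℕ) : ∃ J : ℕ, ∀ j t : ℕ, J ≤ j → 0 < t → ∀ A : AdamsSequence,
    ∀ (u : Z (n + 1 + 1 + 1)) (hu : IsHom (n + 1 + 1 + 1) (2 ^ j * t + 1) u.1), Survives A u hu →
    ∃ x : Z (n + 1 + 1), IsHom (n + 1 + 1) (2 ^ j * t) x.1 ∧ cl u = h0 (n + 1 + 1) (cl x) ∧
      cl (Sq1 (n + 1 + 1) x) = 0 ∧ ¬ IsSqOne (n + 1) j t x := by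
  obtain ⟨J1, h1⟩ := h0_surj1 (n + 1 + 1)
  obtain ⟨J2, h2⟩ := cycle_h0_iff (n + 1)
  obtain ⟨J3, h3⟩ := hit_second n
  refine ⟨J1 + J2 + J3 + 1, fun j t hj ht A u hu hs => ?_⟩
  obtain ⟨y, hy, hne⟩ := hs 3 (by norm_num)
  have hc := cycle_of_lives A hy le_rfl
  have hpos := h3 A j t (by omega) ht u hu 3 y le_rfl hy
  obtain ⟨k, rfl⟩ : ∃ k, j = k + 1 := ⟨j - 1, by omega⟩
  obtain ⟨x', hx', hux⟩ := h1 k t (by omega) u hu
  have hX : IsHom (n + 1 + 1) (2 ^ (k + 1) * t) (sqZ (n + 1 + 1) x').1 := by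
    have h5 := isHom_sq x' hx'
    have h6 : 2 * (2 ^ k * t) = 2 ^ (k + 1) * t := by ring
    rw [h6] at h5
    exact h5
  have e1 := (rep_congr A hu (isHom_h0 _ hX)).2 hux
  rw [e1] at hc
  have e2 : cl u = h0 (n + 1 + 1) (cl (sqZ (n + 1 + 1) x')) := by
    rw [h0_cl]
    exact cl_eq_iff.2 hux
  refine ⟨sqZ (n + 1 + 1) x', hX, e2, (h2 A (k + 1) t (by omega) _ hX).1 hc, ?_⟩
  rintro ⟨w, hw, hwx⟩
  exact hne (hpos.2 ⟨w, hw, by rw [e2, hwx]⟩)

/-- **Theorem.** Let `s = m + 1 ≥ 2`. There is `J`, depending only on `s`, such that for all `j ≥ J` and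
all `t` the multiplication by `h₀²` is injective on `Ext^{s, 2^j t}`, and for all `j ≥ J`, all `t > 0` and
every spectral sequence `A` which starts with `E₂ = Ext`, with `h₀` and Bruner's formula (for instance
the Adams spectral sequence of the sphere) the properties of `ThirdPageLaw` hold: `E₃^{s+1, 2^j t + 1}`
is the homology of `Sq¹` at `Ext^{s, 2^j t}`. -/
theorem result (m : ℕ) (hm : 1 ≤ m) :
    ∃ J : ℕ, ∀ j t : ℕ, J ≤ j → HZeroSquareInjective (m + 1) (2 ^ j * t) ∧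
      (0 < t → ∀ A : AdamsSequence, ThirdPageLaw A m j t) := by
  obtain ⟨n, rfl⟩ : ∃ n, m = n + 1 := ⟨m - 1, by omega⟩
  obtain ⟨J1, h1⟩ := sq_inj (n + 1)
  obtain ⟨J2, h2⟩ := cycle_h0_iff (n + 1)
  obtain ⟨J3, h3⟩ := cycle_iff_sq1 (n + 1)
  obtain ⟨J4, h4⟩ := hit_iff n
  obtain ⟨J5, h5⟩ := page3_surj (n + 1)
  obtain ⟨J6, h6⟩ := page3_inj n
  obtain ⟨J7, h7⟩ := survivors n
  refine ⟨J1 + J2 + J3 + J4 + J5 + J6 + J7, fun j t hj => ⟨h1 j t (by omega), fun ht A =>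
    ⟨fun x hx => h2 A j t (by omega) x hx, fun x hx hS => ?_, h5 A j t (by omega),
      h6 A j t (by omega) ht, h7 j t (by omega) ht A⟩⟩⟩
  have hc := (h3 A j t (by omega) x hx).2 hS
  exact ⟨_, Lives.step 2 _ hc Lives.start,
    h4 A j t (by omega) ht x hx 3 _ le_rfl (Lives.step 2 _ hc Lives.start)⟩

end Pool.Agent.Results.MP_701abf_gt.ThirdPage
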